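import Pool.Agent.Helper61.NW.Goals2

/-!
# Project KZ: virtually `ℤ²` groups with a nontrivial finite normal subgroup
-/

set_option autoImplicit false

namespace Pool.Agent.Helper95.KZ

open Pool.Agent.Helper52.Wq2 Pool.Agent.Helper61.NW

universe u

/-- **KZ2.** The goal. -/
def Kz2Stmt : Prop := ∀ (Γ : Type u) [Group Γ] (S : Set Γ), IsGen S →
  (∃ A : Subgroup Γ, A.FiniteIndex ∧ Nonempty (A ≃* Multiplicative (ℤ × ℤ))) →
  (∃ K : Subgroup Γ, K.Normal ∧ K ≠ ⊥ ∧ (K : Set Γ).Finite) → KN (cay S)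

/-- **PRE.** Proof. `e₁, e₂` the generators of `A`. The centralizer of `K` has finite index (`Γ` acts by
conjugation on the finite set `K`), so `a = e₁ ^ N`, `b = e₂ ^ N` commute with `K` for some `N > 0`.
`⟨a, b⟩` has finite index in `A`, so in `Γ`: `R` = representatives of the right cosets. -/
def PreStmt : Prop := ∀ (Γ : Type u) [Group Γ] (K : Subgroup Γ), K.Normal → (K : Set Γ).Finite →
  (∃ A : Subgroup Γ, A.FiniteIndex ∧ Nonempty (A ≃* Multiplicative (ℤ × ℤ))) →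
  ∃ a b : Γ, a * b = b * a ∧ (∀ k ∈ K, a * k = k * a) ∧ (∀ k ∈ K, b * k = k * b) ∧
    (∀ i j : ℤ, a ^ i * b ^ j = 1 → i = 0 ∧ j = 0) ∧
    ∃ R : Set Γ, R.Finite ∧ ∀ g, ∃ i j : ℤ, ∃ r ∈ R, g = a ^ i * b ^ j * r

/-- **BAL.** Proof. `B₀` = a finite connected set which contains `R`, `K` and `1` (finitely many walks from
`1`), `B` = union of the `k B₀`, `k ∈ K` (each contains `k ∈ B₀`). -/
def BalStmt : Prop := ∀ (Γ : Type u) [Group Γ] (S : Set Γ) (K : Subgroup Γ) (R : Set Γ), IsGen S →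
  (K : Set Γ).Finite → R.Finite →
  ∃ B : Set Γ, B.Finite ∧ Conn (cay S) B ∧ R ⊆ B ∧ ∀ k ∈ K, ∀ x ∈ B, k * x ∈ B

/-- **LIN.** A simple periodic line.

Proof. Among all `u : Γ`, `n : ℕ`, words `s₁ … sₙ` in `S`, `j ≠ 0` and `κ ∈ K` with
`u s₁ ⋯ sₙ = κ a ^ j u` take one with minimal `n` (there is one: `u = 1`, a word for `a`). `n > 0`, as
`a ^ j ∉ K`. `u_i = u s₁ ⋯ s_i`, `F = {u_0, …, u_(n-1)}`, `c = κ a ^ j`, so `u_n = c u_0` and
`ℓ = ⋃ c ^ i F` is connected. If `u_i = k a ^ l u_i'` with `k ∈ K`, `0 ≤ i < i' < n`: for `l ≠ 0` the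
walk from `u_i` to `u_i'` is shorter (`u_i' = (a ^ (-l) k⁻¹) u_i`); for `l = 0` cut it out:
`u s₁ ⋯ s_i s_(i'+1) ⋯ sₙ = k u_n = k κ a ^ j u` is shorter. So if `k c ^ i u_p = c ^ l u_q` then
`p = q` (`c ^ i = κ' a ^ (j i)`), then `i = l` (`a ^ (j (i - l)) ∈ K`), then `k = 1`. -/
def LinStmt : Prop := ∀ (Γ : Type u) [Group Γ] (S : Set Γ) (K : Subgroup Γ) (a : Γ), IsGen S →
  K.Normal → (∀ k ∈ K, a * k = k * a) → (∀ i : ℤ, a ^ i ∈ K → i = 0) →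
  ∃ κ ∈ K, ∃ j : ℤ, j ≠ 0 ∧ ∃ F : Set Γ, F.Finite ∧ F.Nonempty ∧
    Conn (cay S) {x | ∃ i : ℤ, ∃ f ∈ F, x = (κ * a ^ j) ^ i * f} ∧
    ∀ k ∈ K, k ≠ 1 → ∀ x, (∃ i : ℤ, ∃ f ∈ F, x = (κ * a ^ j) ^ i * f) →
      ¬ ∃ i : ℤ, ∃ f ∈ F, k * x = (κ * a ^ j) ^ i * f

/-- The plane. -/
structure Pl {Γ : Type u} [Group Γ] (S : Set Γ) (a b k : Γ) (B : Set Γ) : Prop where
  gen : IsGen S
  ab : a * b = b * a
  ak : a * k = k * a
  bk : b * k = k * b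
  ind : ∀ i j : ℤ, a ^ i * b ^ j = 1 → i = 0 ∧ j = 0
  fin : B.Finite
  conn : Conn (cay S) B
  one : (1 : Γ) ∈ B
  ha : a ∈ B
  hb : b ∈ B
  kB : ∀ x ∈ B, k * x ∈ B
  cov : ∀ g, ∃ i j : ℤ, ∃ x ∈ B, g = a ^ i * b ^ j * x

/-- Slabs: the union of the `a ^ i b ^ j B` with `P j`. -/
def Sl {Γ : Type u} [Group Γ] (a b : Γ) (B : Set Γ) (P : ℤ → Prop) : Set Γ :=
  {g | ∃ i j : ℤ, P j ∧ ∃ x ∈ B, g = a ^ i * b ^ j * x}

/-- **SLC.** Slabs are connected. Proof. `a ^ i b ^ j B` is connected and contains `a ^ i b ^ j`,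
`a ^ (i + 1) b ^ j`, `a ^ i b ^ (j + 1)`. -/
def SlcStmt : Prop := ∀ (Γ : Type u) [Group Γ] (S : Set Γ) (a b k : Γ) (B : Set Γ), Pl S a b k B →
  ∀ P : ℤ → Prop, (∃ j, P j) → (∀ i j l, P i → P l → i ≤ j → j ≤ l → P j) →
  Conn (cay S) (Sl a b B P)

/-- **FAR.** Finite sets have bounded height. Proof. `a ^ i b ^ j = f x⁻¹` has at most one solution. -/
def FarStmt : Prop := ∀ (Γ : Type u) [Group Γ] (S : Set Γ) (a b k : Γ) (B : Set Γ), Pl S a b k B →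
  ∀ F : Set Γ, F.Finite → ∃ L : ℤ, 0 ≤ L ∧ ∀ i j : ℤ, ∀ x ∈ B, a ^ i * b ^ j * x ∈ F → |j| ≤ L

/-- The connected sets disjoint from `l` that join the upper slab `c ≤ j` to the lower one. -/
def Jmp {Γ : Type u} [Group Γ] (S : Set Γ) (a b : Γ) (B l : Set Γ) : Prop :=
  ∀ c : ℤ, ∃ W : Set Γ, W.Finite ∧ Conn (cay S) W ∧ Disjoint W l ∧
    (W ∩ Sl a b B (fun j => c ≤ j)).Nonempty ∧ (W ∩ Sl a b B (fun j => j ≤ -c)).Nonempty

/-- **JMP.** A line `l` disjoint from `k l` does not separate. (May assume `SlcStmt`.)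

Proof. May assume `c > L`, `c > 0`. `R⁺`, `R⁻` the slabs `c ≤ j`, `j ≤ -c`: connected, disjoint from `l`,
`k R⁺ = R⁺`, `k R⁻ = R⁻`. `U` = all `x` in a connected set `W` disjoint from `l` which meets `R⁺`; `U'`
the same for `R⁻`. If `U ∩ U' ≠ ∅`, there is a connected set as wanted, and a finite connected
subset of it (a path). Otherwise `k l`, connected and disjoint from `l`, is disjoint from `U` or
from `U'`, say from `U` (the other case is the same). Then `U ⊆ k U` (`x ∈ U`, `W ⊆ U` misses `k l`, so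
`k⁻¹ W` misses `l` and meets `R⁺`). As `cay S` is connected, some `y ∉ U` is adjacent to some
`x ∈ U`; `y ∈ l` (otherwise `W ∪ {y}`); `k⁻¹ y ∉ l` and it is adjacent to `k⁻¹ x ∈ U`, so `k⁻¹ y ∈ U`. So
`y ∈ k U`, `y ∉ U`. But `U ⊆ k U ⊆ k² U ⊆ … ⊆ k ^ o U = U` gives `k U ⊆ U`. -/
def JmpStmt : Prop := ∀ (Γ : Type u) [Group Γ] (S : Set Γ) (a b k : Γ) (B : Set Γ), Pl S a b k B →
  ∀ o : ℕ, 0 < o → k ^ o = 1 → ∀ l : Set Γ, Conn (cay S) l → (∀ x ∈ l, k * x ∉ l) →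
  ∀ L : ℤ, 0 ≤ L → (∀ i j : ℤ, ∀ x ∈ B, a ^ i * b ^ j * x ∈ l → |j| ≤ L) → Jmp S a b B l

/-- **EN.** (May assume `SlcStmt`, `FarStmt`; `Helper74.NW.combine`, `kn_of`.)

Proof. `c = L + 1`, `W` from `Jmp`, `E⁺`, `E⁻` finite connected sets which contain `x₀ ∈ l` and `b ^ c`,
`b ^ (-c)`. All representations of elements of `W ∪ E⁺ ∪ E⁻` have `|j| ≤ L'` (FAR). `M > 2 (L + L' + c)`.
`T i = b ^ (M i) l` (`i : ℕ`), connected, invariant under `z`, with heights in `[M i - L, M i + L]`, so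
disjoint. Band `i` = slab `M i + c ≤ j ≤ M (i + 1) - c`: connected, disjoint from all `T l`;
`b ^ (M i) W` meets the bands `i - 1` and `i` and misses all `T l`; `b ^ (M i) E⁺` joins `T i` to band `i`
and misses `T l`, `l ≠ i`; `b ^ (M (i + 1)) E⁻` joins band `i` to `T (i + 1)`. So for `i < j` the union of
`b ^ (M i) E⁺`, the bands `i, …, j - 1`, the `b ^ (M l) W`, `i < l < j`, and `b ^ (M j) E⁻` is connected
and misses `T l`, `l ≠ i, j`; take a finite path in it (`Helper74.NW.Rel.finite`) and `combine`. -/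
def EnStmt : Prop := ∀ (Γ : Type u) [Group Γ] (S : Set Γ) (a b k : Γ) (B : Set Γ), Pl S a b k B →
  ∀ (z : Γ) (l : Set Γ), z * b = b * z → (∀ n : ℕ, 0 < n → z ^ n ≠ 1) → Conn (cay S) l →
  (∀ x, z * x ∈ l ↔ x ∈ l) → ∀ L : ℤ, 0 ≤ L →
  (∀ i j : ℤ, ∀ x ∈ B, a ^ i * b ^ j * x ∈ l → |j| ≤ L) → Jmp S a b B l → KN (cay S)

/-- **AS.** (May assume `PreStmt`, `BalStmt`, `LinStmt`, `FarStmt`, `JmpStmt`, `EnStmt`.)

Proof. `a`, `b`, `R` from PRE, `1 ≠ k ∈ K`, `B` from BAL for `R ∪ {1, a, b}`. `κ, j, F` from LIN, `z = κ a ^ j`,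
`l = ⋃ z ^ i F`; heights: `z ^ i f = κ' a ^ (j i) f`, with FAR for the finite set `K F`:
`a ^ i' b ^ j' x = κ' a ^ (j i) f` gives `a ^ (i' - j i) b ^ j' x = κ' f`. -/
def AsStmt : Prop := Kz2Stmt.{u}

/-- **F4.** (From `Kz2Stmt`, `Pool.Agent.Helper61.NW.nwp` and `In3Stmt`.) The final statement: virtually
nilpotent groups, if virtually `ℤ²` then nilpotent, or with centre of finite index, or with a
nontrivial finite normal subgroup. -/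
def F4Stmt : Prop := ∀ (Γ : ℕ → Type u) [∀ i, Group (Γ i)] [∀ i, Countable (Γ i)]
  (S : ∀ i, Set (Γ i)), (∀ i, IsGen (S i)) →
  (∀ i, (Infinite (Γ i) ∧ (Group.IsNilpotent (Γ i) ∨ (Subgroup.center (Γ i)).FiniteIndex ∨
      ((∃ N : Subgroup (Γ i), N.FiniteIndex ∧ Group.IsNilpotent N) ∧
        ((∃ K : Subgroup (Γ i), K.Normal ∧ K ≠ ⊥ ∧ (K : Set (Γ i)).Finite) ∨
        ¬ ∃ A : Subgroup (Γ i), A.FiniteIndex ∧ Nonempty (A ≃* Multiplicative (ℤ × ℤ)))))) ∨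
    KN (cay (S i))) → ∃ i j, i < j ∧ Mn (cay (S i)) (cay (S j))

end Pool.Agent.Helper95.KZ
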