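import Pool.Agent.Helper95.KZ.Goals
import Pool.Agent.Helper95.NW.TwoLayer
import Pool.Agent.Helper74.NW.ZED

set_option autoImplicit false

namespace Pool.Agent.Helper95.KZ

open Pool.Agent.Helper52.Wq2 Pool.Agent.Helper61.NW

universe u

open Pool.Agent.Helper74.NW (Rel)

theorem rel_of_conn {V : Type u} {G : SimpleGraph V} {C X : Set V} (hC : Conn G C) (hCX : C ⊆ X)
    {x y : V} (hx : x ∈ C) (hy : y ∈ C) : Relation.ReflTransGen (Rel G X) x y := by
  have h := hC.2 {y | y ∈ C ∧ Relation.ReflTransGen (Rel G X) x y} (fun y hy => hy.1)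
    ⟨x, hx, Relation.ReflTransGen.refl⟩ (by
      rintro a ⟨ha, hxa⟩ b hb hab
      exact ⟨hb, hxa.tail ⟨hab, hCX ha, hCX hb⟩⟩)
  exact (h hy).2

theorem fin_path {V : Type u} {G : SimpleGraph V} {x y : V} (p : G.Walk x y) :
    ∃ E : Set V, E.Finite ∧ Conn G E ∧ x ∈ E ∧ y ∈ E := by
  induction p with
  | nil => exact ⟨{_}, Set.finite_singleton _, conn_singleton _ _, rfl, rfl⟩
  | @cons x z y hadj p ih =>
    obtain ⟨E, h1, h2, h3, h4⟩ := ih
    exact ⟨{x} ∪ E, (Set.finite_singleton _).union h1,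
      (conn_singleton _ _).union h2 rfl h3 hadj, Or.inl rfl, Or.inr h4⟩

theorem en (hSlc : SlcStmt.{u}) (hFar : FarStmt.{u}) : EnStmt.{u} := by
  intro Γ _ S a b k B pl z l hzb hzn hlc hzl L hL0 hLl hJ
  have hS := pl.gen
  obtain ⟨x0, hx0⟩ := hlc.1
  obtain ⟨W, hWf, hWc, hWl, ⟨wp, hwp, ip, jp, hjp, xp, hxp, hwpe⟩,
    ⟨wm, hwm, im, jm, hjm, xm, hxm, hwme⟩⟩ := hJ (L + 1)
  obtain ⟨pE⟩ := ((Pool.Agent.Helper95.NW.cay_conn hS x0).symm.trans
    (Pool.Agent.Helper95.NW.cay_conn hS (b ^ (L + 1))))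
  obtain ⟨pE'⟩ := ((Pool.Agent.Helper95.NW.cay_conn hS x0).symm.trans
    (Pool.Agent.Helper95.NW.cay_conn hS (b ^ (-(L + 1)))))
  obtain ⟨Ep, hEf, hEc, hE0, hE1⟩ := fin_path pE
  obtain ⟨Em, hmf, hmc, hm0, hm1⟩ := fin_path pE'
  obtain ⟨L', hL'0, hL'⟩ := hFar Γ S a b k B pl (W ∪ Ep ∪ Em) ((hWf.union hEf).union hmf)
  have hab : Commute a b := pl.ab
  set M : ℤ := 2 * (L + L' + 2) with hM
  have hM0 : 0 < M := by omega
  have mulL : ∀ (i j c : ℤ) (x : Γ), b ^ c * (a ^ i * b ^ j * x) = a ^ i * b ^ (c + j) * x := by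
    intro i j c x
    have h1 : Commute (b ^ c) (a ^ i) := (hab.symm.zpow_left c).zpow_right i
    rw [← mul_assoc, ← mul_assoc, h1.eq, mul_assoc (a ^ i), ← zpow_add]
  have adjL : ∀ c x y : Γ, (cay S).Adj x y → (cay S).Adj (c * x) (c * y) := by
    intro c x y h
    rw [cay_adj hS] at h ⊢
    rwa [mul_inv_rev, mul_assoc, inv_mul_cancel_left]
  have connL : ∀ (c : Γ) (C : Set Γ), Conn (cay S) C → Conn (cay S) ((fun x => c * x) '' C) :=
    fun c C hC => hC.image _ (fun x _ y _ h => Or.inr (adjL _ _ _ h))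
  set T : ℕ → Set Γ := fun n => (fun x => b ^ (M * (n : ℤ)) * x) '' l with hT
  have hTc : ∀ n, Conn (cay S) (T n) := fun n => connL _ _ hlc
  have repT : ∀ (n : ℕ) (i j : ℤ), ∀ x ∈ B, a ^ i * b ^ j * x ∈ T n → |j - M * n| ≤ L := by
    rintro n i j x hx ⟨y, hy, h⟩
    have h1 : y = a ^ i * b ^ (-(M * (n : ℤ)) + j) * x := by
      rw [← mulL, ← h]
      simp only
      rw [← mul_assoc, ← zpow_add, neg_add_cancel, zpow_zero, one_mul]
    have h2 := hLl i (-(M * (n : ℤ)) + j) x hx (h1 ▸ hy)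
    rwa [neg_add_eq_sub] at h2
  -- translates of the finite sets
  have repF : ∀ (n m : ℕ) (f : Γ), f ∈ W ∪ Ep ∪ Em → b ^ (M * (n : ℤ)) * f ∈ T m → n = m := by
    intro n m f hf h
    obtain ⟨i, j, x, hx, hfe⟩ := pl.cov f
    have h1 := hL' i j x hx (hfe ▸ hf)
    rw [hfe, mulL] at h
    have h2 := repT m _ _ x hx h
    rw [abs_le] at h1 h2
    by_contra hne
    rcases lt_or_gt_of_ne hne with h3 | h3
    · have h4 : M * ((n : ℤ) + 1) ≤ M * m := by
        apply mul_le_mul_of_nonneg_left _ hM0.le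
        exact_mod_cast h3
      rw [mul_add] at h4
      omega
    · have h4 : M * ((m : ℤ) + 1) ≤ M * n := by
        apply mul_le_mul_of_nonneg_left _ hM0.le
        exact_mod_cast h3
      rw [mul_add] at h4
      omega
  set Bd : ℕ → Set Γ := fun n => Sl a b B (fun j => M * n + (L + 1) ≤ j ∧
    j ≤ M * n + M - (L + 1)) with hBd
  have hBc : ∀ n, Conn (cay S) (Bd n) := by
    intro n
    refine hSlc Γ S a b k B pl _ ⟨M * n + (L + 1), le_refl _, by omega⟩ ?_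
    rintro i j m ⟨h1, h2⟩ ⟨h3, h4⟩ h5 h6
    constructor <;> omega
  have hBT : ∀ n m : ℕ, Disjoint (Bd n) (T m) := by
    intro n m
    rw [Set.disjoint_left]
    rintro _ ⟨i, j, ⟨h1, h2⟩, x, hx, rfl⟩ h
    have h3 := repT m i j x hx h
    rw [abs_le] at h3
    rcases le_or_gt m n with h4 | h4
    · have h5 : M * (m : ℤ) ≤ M * n := by
        apply mul_le_mul_of_nonneg_left _ hM0.le
        exact_mod_cast h4
      omega
    · have h5 : M * ((n : ℤ) + 1) ≤ M * m := by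
        apply mul_le_mul_of_nonneg_left _ hM0.le
        exact_mod_cast h4
      rw [mul_add] at h5
      omega
  have hp1 := hL' ip jp xp hxp (hwpe ▸ (Or.inl (Or.inl hwp)))
  have hm1' := hL' im jm xm hxm (hwme ▸ (Or.inl (Or.inl hwm)))
  rw [abs_le] at hp1 hm1'
  -- the point `b ^ (M n + L + 1)` of band `n`
  set P : ℕ → Γ := fun n => b ^ (M * (n : ℤ)) * b ^ (L + 1) with hP
  have hPB : ∀ n, P n ∈ Bd n := by
    intro n
    refine ⟨0, M * n + (L + 1), ⟨le_refl _, by omega⟩, 1, pl.one, ?_⟩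
    rw [zpow_zero, one_mul, mul_one, zpow_add]
  have hQB : ∀ n : ℕ, b ^ (M * ((n + 1 : ℕ) : ℤ)) * b ^ (-(L + 1)) ∈ Bd n := by
    intro n
    refine ⟨0, M * n + M - (L + 1), ⟨by omega, le_refl _⟩, 1, pl.one, ?_⟩
    rw [zpow_zero, one_mul, mul_one, ← zpow_add]
    congr 1
    push_cast
    ring
  have hwB : ∀ n, b ^ (M * (n : ℤ)) * wp ∈ Bd n := by
    intro n
    rw [hwpe, mulL]
    exact ⟨ip, M * n + jp, ⟨by omega, by omega⟩, xp, hxp, rfl⟩
  have hwB' : ∀ n : ℕ, b ^ (M * ((n + 1 : ℕ) : ℤ)) * wm ∈ Bd n := by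
    intro n
    rw [hwme, mulL]
    have e : M * ((n + 1 : ℕ) : ℤ) + jm = M * n + M + jm := by push_cast; ring
    rw [e]
    exact ⟨im, M * n + M + jm, ⟨by omega, by omega⟩, xm, hxm, rfl⟩
  have key : ∀ i j : ℕ, i < j → Relation.ReflTransGen
      (Rel (cay S) {x | ∀ m, m ≠ i → m ≠ j → x ∉ T m})
      (b ^ (M * (i : ℤ)) * x0) (b ^ (M * (j : ℤ)) * x0) := by
    intro i j hij
    set X : Set Γ := {x | ∀ m, m ≠ i → m ≠ j → x ∉ T m} with hX
    have hBX : ∀ n, Bd n ⊆ X := fun n x hx m _ _ hm =>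
      Set.disjoint_left.1 (hBT n m) hx hm
    have s1 : ∀ d, i + d < j → Relation.ReflTransGen (Rel (cay S) X)
        (b ^ (M * (i : ℤ)) * x0) (P (i + d)) := by
      intro d
      induction d with
      | zero =>
        intro _
        refine rel_of_conn (connL (b ^ (M * (i : ℤ))) Ep hEc) ?_ ⟨x0, hE0, rfl⟩
          ⟨b ^ (L + 1), hE1, rfl⟩
        rintro _ ⟨f, hf, rfl⟩ m hm1 hm2 hm3
        exact hm1 (repF i m f (Or.inl (Or.inr hf)) hm3).symm
      | succ d ih =>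
        intro hd
        have h1 := ih (by omega)
        have h2 : Relation.ReflTransGen (Rel (cay S) X) (P (i + d))
            (b ^ (M * ((i + d + 1 : ℕ) : ℤ)) * wm) :=
          rel_of_conn (hBc (i + d)) (hBX _) (hPB _) (hwB' _)
        have h3 : Relation.ReflTransGen (Rel (cay S) X)
            (b ^ (M * ((i + d + 1 : ℕ) : ℤ)) * wm) (b ^ (M * ((i + d + 1 : ℕ) : ℤ)) * wp) := by
          refine rel_of_conn (connL (b ^ (M * ((i + d + 1 : ℕ) : ℤ))) W hWc) ?_ ⟨wm, hwm, rfl⟩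
            ⟨wp, hwp, rfl⟩
          rintro _ ⟨f, hf, rfl⟩ m hm1 hm2 hm3
          have h4 := repF (i + d + 1) m f (Or.inl (Or.inl hf)) hm3
          subst h4
          obtain ⟨y, hy, h5⟩ := hm3
          have h6 : y = f := mul_left_cancel h5
          rw [h6] at hy
          exact Set.disjoint_left.1 hWl hf hy
        have h4 : Relation.ReflTransGen (Rel (cay S) X)
            (b ^ (M * ((i + d + 1 : ℕ) : ℤ)) * wp) (P (i + d + 1)) :=
          rel_of_conn (hBc (i + d + 1)) (hBX _) (hwB _) (hPB _)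
        exact ((h1.trans h2).trans h3).trans h4
    obtain ⟨d, hd⟩ : ∃ d, j = i + d + 1 := ⟨j - i - 1, by omega⟩
    have h1 := s1 d (by omega)
    have h2 : Relation.ReflTransGen (Rel (cay S) X) (P (i + d))
        (b ^ (M * ((i + d + 1 : ℕ) : ℤ)) * b ^ (-(L + 1))) :=
      rel_of_conn (hBc (i + d)) (hBX _) (hPB _) (hQB _)
    have h3 : Relation.ReflTransGen (Rel (cay S) X)
        (b ^ (M * ((i + d + 1 : ℕ) : ℤ)) * b ^ (-(L + 1)))
        (b ^ (M * ((i + d + 1 : ℕ) : ℤ)) * x0) := by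
      refine rel_of_conn (connL (b ^ (M * ((i + d + 1 : ℕ) : ℤ))) Em hmc) ?_
        ⟨b ^ (-(L + 1)), hm1, rfl⟩ ⟨x0, hm0, rfl⟩
      rintro _ ⟨f, hf, rfl⟩ m hm1 hm2 hm3
      exact hm2 ((repF (i + d + 1) m f (Or.inr hf) hm3).symm.trans hd.symm)
    rw [hd]
    exact (h1.trans h2).trans h3
  apply Pool.Agent.Helper74.NW.kn_of
  refine Pool.Agent.Helper74.NW.combine (S := S) z hzn T
    (fun n => b ^ (M * (n : ℤ)) * x0) (fun n => ⟨x0, hx0, rfl⟩) ?_ ?_ ?_ ?_
  · intro n y hy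
    exact rel_of_conn (hTc n) (le_refl _) ⟨x0, hx0, rfl⟩ hy
  · intro i n y
    have hzl' : ∀ (n : ℕ) (x : Γ), z ^ n * x ∈ l ↔ x ∈ l := by
      intro n
      induction n with
      | zero => intro x; rw [pow_zero, one_mul]
      | succ n ih => intro x; rw [pow_succ', mul_assoc, hzl, ih]
    have hc : Commute (z ^ n) (b ^ (M * (i : ℤ))) := by
      have h1 : Commute z b := hzb
      exact (h1.pow_left n).zpow_right _
    constructor
    · rintro ⟨x, hx, h⟩
      refine ⟨(z ^ n)⁻¹ * x, ?_, ?_⟩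
      · rw [← hzl' n, mul_inv_cancel_left]; exact hx
      · simp only at h ⊢
        have h1 : y = (z ^ n)⁻¹ * (b ^ (M * (i : ℤ)) * x) := by rw [h, inv_mul_cancel_left]
        rw [h1, ← mul_assoc, ← mul_assoc, hc.inv_left.eq]
    · rintro ⟨x, hx, rfl⟩
      refine ⟨z ^ n * x, (hzl' n x).2 hx, ?_⟩
      simp only
      rw [← mul_assoc, ← mul_assoc, hc.eq]
  · intro i j hij
    rw [Set.disjoint_left]
    rintro _ ⟨x, hx, rfl⟩ h
    obtain ⟨p, q, y, hy, hxe⟩ := pl.cov x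
    have h1 := hLl p q y hy (hxe ▸ hx)
    simp only at h
    rw [hxe, mulL] at h
    have h2 := repT j _ _ y hy h
    rw [abs_le] at h1 h2
    rcases lt_or_gt_of_ne hij with h3 | h3
    · have h4 : M * ((i : ℤ) + 1) ≤ M * j := by
        apply mul_le_mul_of_nonneg_left _ hM0.le
        exact_mod_cast h3
      rw [mul_add] at h4
      omega
    · have h4 : M * ((j : ℤ) + 1) ≤ M * i := by
        apply mul_le_mul_of_nonneg_left _ hM0.le
        exact_mod_cast h3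
      rw [mul_add] at h4
      omega
  · have fin : ∀ i j : ℕ, i < j → ∃ E : Set Γ, E.Finite ∧
        Relation.ReflTransGen (Rel (cay S) E) (b ^ (M * (i : ℤ)) * x0)
          (b ^ (M * (j : ℤ)) * x0) ∧ ∀ m, m ≠ i → m ≠ j → Disjoint E (T m) := by
      intro i j hij
      have hx : b ^ (M * (i : ℤ)) * x0 ∈ {x | ∀ m, m ≠ i → m ≠ j → x ∉ T m} := by
        intro m h1 _ h3
        exact h1 (repF i m x0 (Or.inl (Or.inr hE0)) h3).symm
      obtain ⟨E, h1, h2, _, h4⟩ := Pool.Agent.Helper74.NW.Rel.finite (key i j hij) hx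
      exact ⟨E, h1, h4, fun m hm1 hm2 => Set.disjoint_left.2 (fun x hx hx' =>
        h2 hx m hm1 hm2 hx')⟩
    intro i j hij
    rcases lt_or_gt_of_ne hij with h | h
    · exact fin i j h
    · obtain ⟨E, h1, h2, h3⟩ := fin j i h
      exact ⟨E, h1, Pool.Agent.Helper74.NW.Rel.symm h2, fun m hm1 hm2 => h3 m hm2 hm1⟩

end Pool.Agent.Helper95.KZ
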