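import Pool.Agent.Helper95.KZ.AS
import Pool.Agent.Helper95.KZ.EN
import Pool.Agent.Helper13.KZ.PRE
import Pool.Agent.Helper71.KZ.BAL
import Pool.Agent.Helper45.KZ.LIN
import Pool.Agent.Helper53.KZ.SLC
import Pool.Agent.Helper2.KZ.FAR
import Pool.Agent.Helper34.KZ.JMP

/-! Project KZ: assembly of KZ2. -/

set_option autoImplicit false

namespace Pool.Agent.Helper95.KZ

universe u

/-- Every Cayley graph of a virtually `ℤ²` group with a nontrivial finite normal subgroup contains
every countable graph as a minor. -/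
theorem kz2 : Kz2Stmt.{u} :=
  as Helper13.KZ.pre Helper71.KZ.bal Helper45.KZ.lin Helper2.KZ.far Helper34.KZ.jmp
    (en Helper53.KZ.slc Helper2.KZ.far)

end Pool.Agent.Helper95.KZ
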