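import Pool.Agent.Helper95.KZ.Goals

set_option autoImplicit false

namespace Pool.Agent.Helper95.KZ

open Pool.Agent.Helper52.Wq2 Pool.Agent.Helper61.NW

universe u

theorem as (hPre : PreStmt.{u}) (hBal : BalStmt.{u}) (hLin : LinStmt.{u}) (hFar : FarStmt.{u})
    (hJmp : JmpStmt.{u}) (hEn : EnStmt.{u}) : Kz2Stmt.{u} := by
  intro Γ _ S hS hA ⟨K, hKn, hKne, hKf⟩
  obtain ⟨a, b, hab, haK, hbK, hind, R, hRf, hR⟩ := hPre Γ K hKn hKf hA
  obtain ⟨k, hk, hk1⟩ : ∃ k ∈ K, k ≠ 1 := by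
    rcases Subgroup.bot_or_exists_ne_one K with h | ⟨k, hk, hk1⟩
    · exact absurd h hKne
    · exact ⟨k, hk, hk1⟩
  obtain ⟨B, hBf, hBc, hRB, hBK⟩ := hBal Γ S K (R ∪ {1, a, b}) hS hKf
    (hRf.union (by simp))
  have pl : Pl S a b k B :=
    { gen := hS
      ab := hab
      ak := haK k hk
      bk := hbK k hk
      ind := hind
      fin := hBf
      conn := hBc
      one := hRB (Or.inr (by simp))
      ha := hRB (Or.inr (by simp))
      hb := hRB (Or.inr (by simp))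
      kB := fun x hx => hBK k hk x hx
      cov := fun g => by
        obtain ⟨i, j, r, hr, hg⟩ := hR g
        exact ⟨i, j, r, hRB (Or.inl hr), hg⟩ }
  haveI : Finite K := hKf
  have hcard : 0 < Nat.card K := Nat.card_pos
  have hpow : ∀ x ∈ K, x ^ Nat.card K = 1 := by
    intro x hx
    have h5 : (⟨x, hx⟩ : K) ^ Nat.card K = 1 := pow_card_eq_one'
    exact congrArg (fun z : K => (z : Γ)) h5
  have haK0 : ∀ i : ℤ, a ^ i ∈ K → i = 0 := by
    intro i hi
    have h1 := hpow _ hi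
    rw [← zpow_natCast, ← zpow_mul] at h1
    have h2 := (hind (i * (Nat.card K : ℤ)) 0 (by rw [h1, zpow_zero, one_mul])).1
    rcases mul_eq_zero.1 h2 with h3 | h3
    · exact h3
    · exact absurd h3 (by exact_mod_cast hcard.ne')
  obtain ⟨κ, hκ, j, hj0, F, hFf, hFn, hconn, hdis⟩ := hLin Γ S K a hS hKn haK haK0
  have hca : Commute κ a := (haK κ hκ).symm
  have hcb : Commute κ b := (hbK κ hκ).symm
  have hcab : Commute a b := hab
  have hcaj : Commute κ (a ^ j) := hca.zpow_right j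
  have hzi : ∀ i : ℤ, (κ * a ^ j) ^ i = κ ^ i * a ^ (j * i) := by
    intro i
    rw [hcaj.mul_zpow, zpow_mul]
  have hzb : κ * a ^ j * b = b * (κ * a ^ j) := by
    have h1 : Commute (κ * a ^ j) b := hcb.mul_left (hcab.zpow_left j)
    exact h1
  have hzn : ∀ n : ℕ, 0 < n → (κ * a ^ j) ^ n ≠ 1 := by
    intro n hn h
    have h1 : (κ * a ^ j) ^ (n : ℤ) = 1 := by rw [zpow_natCast]; exact h
    rw [hzi] at h1
    have h2 : a ^ (j * (n : ℤ)) = (κ ^ (n : ℤ))⁻¹ := eq_inv_of_mul_eq_one_right h1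
    have h3 : a ^ (j * (n : ℤ)) ∈ K := by
      rw [h2]; exact K.inv_mem (K.zpow_mem hκ _)
    rcases mul_eq_zero.1 (haK0 _ h3) with h4 | h4
    · exact hj0 h4
    · have : n = 0 := by exact_mod_cast h4
      omega
  set l : Set Γ := {x | ∃ i : ℤ, ∃ f ∈ F, x = (κ * a ^ j) ^ i * f} with hl
  have hzl : ∀ x, κ * a ^ j * x ∈ l ↔ x ∈ l := by
    intro x
    constructor
    · rintro ⟨i, f, hf, h⟩
      refine ⟨i - 1, f, hf, ?_⟩
      rw [zpow_sub_one, ← zpow_neg_one, mul_assoc]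
      have h1 : x = (κ * a ^ j)⁻¹ * ((κ * a ^ j) ^ i * f) := by rw [← h, inv_mul_cancel_left]
      rw [h1, ← mul_assoc, ← zpow_neg_one, ← zpow_add, ← mul_assoc, ← zpow_add]
      congr 2
      ring
    · rintro ⟨i, f, hf, rfl⟩
      refine ⟨i + 1, f, hf, ?_⟩
      rw [add_comm, zpow_one_add]
      simp only [mul_assoc]
  obtain ⟨L, hL0, hL⟩ := hFar Γ S a b k B pl (Set.image2 (fun x f => x * f) (K : Set Γ) F)
    (hKf.image2 _ hFf)
  have hLl : ∀ i' j' : ℤ, ∀ x ∈ B, a ^ i' * b ^ j' * x ∈ l → |j'| ≤ L := by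
    rintro i' j' x hx ⟨i, f, hf, h⟩
    refine hL (-(j * i) + i') j' x hx ⟨κ ^ i, K.zpow_mem hκ i, f, hf, ?_⟩
    rw [hzi] at h
    show κ ^ i * f = a ^ (-(j * i) + i') * b ^ j' * x
    have h1 : a ^ (-(j * i) + i') * b ^ j' * x = a ^ (-(j * i)) * (a ^ i' * b ^ j' * x) := by
      rw [zpow_add]; simp only [mul_assoc]
    have h2 : Commute (κ ^ i) (a ^ (j * i)) := (hca.zpow_left i).zpow_right (j * i)
    rw [h1, h, h2.eq, mul_assoc, ← mul_assoc, ← zpow_add, neg_add_cancel, zpow_zero, one_mul]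
  have hJ : Jmp S a b B l := hJmp Γ S a b k B pl (Nat.card K) hcard (hpow k hk) l hconn
    (fun x hx => hdis k hk hk1 x hx) L hL0 hLl
  exact hEn Γ S a b k B pl (κ * a ^ j) l hzb hzn hconn hzl L hL0 hLl hJ

end Pool.Agent.Helper95.KZ
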